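import Pool.Agent.Helper65.CK.KData
import Pool.Agent.Helper71.CK.PointG
import Pool.Agent.Helper84.CK.KOneWg
set_option autoImplicit false
open Complex MeasureTheory Metric Set
open scoped Real ComplexConjugate

/-!
# Project CK: from the data of a certificate to the bound for one target, disc multipliers with
growth
-/

namespace Pool.Agent.Helper65.CK

open Pool.Agent.Helper39.Area Pool.Agent.Helper52.EK
open Pool.Agent.Helper69.CK Pool.Agent.Helper84.CK Pool.Agent.Helper71.CK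
open Pool.Agent.Helper84.CB (RegQ CenQP Q_lowQ bq CenE line_hd q_hd cenQP_Xf)
open Pool.Agent.Helper69.EK3 (NiceH RectH pt_mem_RectH)
open Pool.Agent.Helper20.CK (Zeq Mq_lip)
open Pool.Agent.Helper2.EK (c1_sub)

/-! ### the bound for one target -/

variable {g : DatG}

/-- **the bound for one target from the pointwise inequality of the data**, for a field `G` and a
multiplier `M` -/
theorem K_pwG (w : g.Wf) (M0 : 0 < g.s.d.c.M) (lam0 : 0 ≤ g.s.d.c.lam)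
    (c10 : 0 ≤ g.s.d.c.c1) (del0 : 0 ≤ g.s.d.del) {G M : ℂ → ℂ} {L q : ℝ} (hG : GLip G L)
    (hGc : ∀ m, G (conj m) = conj (G m)) (hM : Continuous M)
    (hMc : ∀ m, M (conj m) = conj (M m))
    (hpt : ∃ B : ℝ, 0 ≤ B ∧ ∀ X Y : ℂ, X ≠ 0 → ∀ η ∈ Icc (0:ℝ) (π / 2),
      Real.sin η * ‖X‖ ≤ 9 → ∃ l1 l2 : ℝ,
      0 ≤ l1 ∧ l1 ≤ B * (1 + ‖X - 1‖ ^ 2) ∧ 0 ≤ l2 ∧ l2 ≤ B * (1 + ‖X - 1‖ ^ 2) ∧
      g.s.d.c.M * ‖G (mX X Y (Real.sin η) (Real.cos η)) - e0 (Real.sin η) (Real.cos η)‖ ^ 2 +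
        (l1 * (16 - ‖Pool.Agent.Helper69.EK3.dA 1 X Y (Real.sin η) (Real.cos η)‖ ^ 2) +
          l2 * (16 - ‖Pool.Agent.Helper69.EK3.dA (-1) X Y (Real.sin η) (Real.cos η)‖ ^ 2)) ≤
        g.NT X Y η + (g.s.d.c.lam * ‖X - 1‖ ^ 2 + g.s.d.c.a2 * ((X.re - 1) ^ 2 - X.im ^ 2)) +
          (g.s.d.kb * (1 - X.re) + g.s.d.del) +
          g.s.d.c.M * (M (mX X Y (Real.sin η) (Real.cos η)) *
            e0 (Real.sin η) (Real.cos η) * (X ^ 2 - q)).re)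
    (hC : CenE (g.Ecp g.s.d.c.c1 (355 / 113))) {κ : ℝ}
    (hκ : (g.s.d.c.lam : ℝ) + g.s.d.c.c1 + (|(g.s.d.c.c1 : ℝ) - g.s.d.kb| +
      2 * |(g.s.d.c.a2 : ℝ)|) / 10 ^ 7 < 2 * κ * g.s.d.c.M) :
    ∃ e C V₀ a₀ : ℝ, 0 < e ∧ 0 ≤ C ∧ 0 < V₀ ∧ a₀ < 1 ∧
      ∀ (β : ℂ → ℂ) (R a V : ℝ) (Ω Ω₁ Ω₂ : ℝ → ℝ → ℝ), ExtR β R → a₀ < a → a < 1 →
      0 ≤ V → V ≤ V₀ → WtF (Real.log (tau a) + 1) (-1) V Ω Ω₁ Ω₂ →
      Kf (wf G β) 1 (-1) (Real.log a) +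
          e * II (Real.log (tau a) + 1) (-1) (fun ξ η => ‖Xf β a (pt ξ η) - 1‖ ^ 2) ≤
        κ * Real.log (‖N β a‖ / (1 - a ^ 2)) +
          π⁻¹ * II (Real.log (tau a) + 1) (-1) (fun ξ η => Ω ξ η * Mt M q (Xf β a) ξ η) +
          4 * π⁻¹ * II (Real.log (tau a) + 1) (-1) (fun ξ η => 1 - Ω ξ η) +
          (g.s.d.del : ℝ) / g.s.d.c.M * (-1 - (Real.log (tau a) + 1)) +
          C * (1 + V * (-1 - (Real.log (tau a) + 1))) := by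
  have hM0 : (0:ℝ) < g.s.d.c.M := by exact_mod_cast M0
  have hlam : (0:ℝ) ≤ g.s.d.c.lam := by exact_mod_cast lam0
  have hc1 : (0:ℝ) ≤ g.s.d.c.c1 := by exact_mod_cast c10
  have hdel : (0:ℝ) ≤ g.s.d.del := by exact_mod_cast del0
  obtain ⟨p, hp⟩ : ∃ p : ℝ, p = 355 / 113 := ⟨_, rfl⟩
  obtain ⟨e1, e2⟩ := Pool.Agent.Helper69.EK3.Dat.pi_err hp
  have hpi := Real.pi_pos
  obtain ⟨A, hA⟩ : ∃ A : ℝ, A = |(g.s.d.c.c1 : ℝ) - g.s.d.kb| + 2 * |(g.s.d.c.a2 : ℝ)| :=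
    ⟨_, rfl⟩
  have hA0 : 0 ≤ A := by rw [hA]; positivity
  obtain ⟨ε, hε⟩ : ∃ ε : ℝ, ε = A * ((p - π) / π) := ⟨_, rfl⟩
  have hε0 : 0 ≤ ε := by
    rw [hε]
    exact mul_nonneg hA0 (div_nonneg e1 hpi.le)
  have hε1 : ε ≤ A / 10 ^ 7 := by
    rw [hε, div_eq_mul_one_div A (10 ^ 7 : ℝ)]
    exact mul_le_mul_of_nonneg_left e2 hA0
  have hεπ : ε * π = A * (p - π) := by
    rw [hε]
    field_simp
  rw [← hA] at hκ
  rw [hA] at hεπ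
  obtain ⟨k, hk⟩ : ∃ k : ℝ, k = g.s.d.c.c1 + ε := ⟨_, rfl⟩
  have n1 := (isNullW_har (P := Pool.Agent.Helper69.EK3.DiscP) (β := fun _ => (1:ℝ))
    continuous_const 2 le_rfl).const_mul (g.s.d.c.a2 : ℝ)
  have n2 := (isNullW_har (P := Pool.Agent.Helper69.EK3.DiscP) (β := fun _ => (1:ℝ))
    continuous_const 1 (by norm_num)).const_mul (k - g.s.d.kb)
  have hN := (((DatG.isNullW_NT w).add n1).add n2).const_mul (1 / (g.s.d.c.M : ℝ))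
  have hre2 : ∀ X : ℂ, ((X - 1) ^ 2).re = (X.re - 1) ^ 2 - X.im ^ 2 := by
    intro X
    rw [pow_two (X - 1), mul_re]
    simp
    ring
  have hre1 : ∀ X : ℂ, ((X - 1) ^ 1).re = X.re - 1 := by
    intro X
    simp
  have hint : ∫ _ in (0:ℝ)..(π / 2), (1:ℝ) = π / 2 := by simp
  obtain ⟨B, hB0, hpt'⟩ := hpt
  -- the centre condition
  have hC1 : CenE (g.Ecp k π) := by
    obtain ⟨Fx, Fy, hF⟩ : ∃ Fx Fy : ℂ → ℝ,
        C1f (fun X => g.Ecp k π X - g.Ecp g.s.d.c.c1 (355 / 113) X) Fx Fy := by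
      obtain ⟨Ax, Ay, hA'⟩ := DatG.Ecp_c1 (g := g) k π
      obtain ⟨Bx, By, hB'⟩ := DatG.Ecp_c1 (g := g) g.s.d.c.c1 (355 / 113)
      exact ⟨_, _, c1_sub hA' hB'⟩
    refine hC.add hF (fun X => by ring) fun X hX => ?_
    rw [← hp, hk]
    exact DatG.Ecp_pi e1 hεπ hX
  have hC2 : CenE fun X => 1 / (g.s.d.c.M : ℝ) * g.Ecp k π X := hC1.const_mul (by positivity)
  have hCen := cenW_E hC2 hN.cK (by
    intro X x₁ x₂ hX ξ hξ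
    have hm : pt ξ (π - π / 2) ∈ Rect x₁ x₂ := by
      have h9 := Pool.Agent.Helper69.EK3.mir_mem (pt_mem_RectH (h := π / 2) hξ
        (⟨by positivity, le_rfl⟩ : π / 2 ∈ Icc (0:ℝ) (π / 2)))
      rwa [Pool.Agent.Helper69.EK3.conj_pt] at h9
    have hA9 : AnalyticAt ℂ X (pt ξ (π - π / 2)) := hX.an _ hm
    have h1 := DatG.KT_conj w (X (pt ξ (π / 2))) (deriv X (pt ξ (π / 2))) k
    simp only [hre2, hre1, hint]
    rw [Pool.Agent.Helper69.EK3.mir_pt, Pool.Agent.Helper69.EK3.mir_deriv_pt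
      hA9.differentiableAt]
    have e9 : π - π / 2 = π / 2 := by ring
    rw [e9]
    linear_combination (1 / (g.s.d.c.M : ℝ)) * h1)
  refine K_oneW_g (B := B / g.s.d.c.M) (lam := g.s.d.c.lam / g.s.d.c.M)
    (k₂ := (g.s.d.c.lam + k) / g.s.d.c.M) (dc := (g.s.d.del : ℝ) / g.s.d.c.M)
    (div_nonneg hB0 hM0.le) (div_nonneg hlam hM0.le) ?_ (div_nonneg hdel hM0.le) ?_ hG hGc hM hMc
    hN ?_ (fun β R a h ha ha1 hx => cenQP_Xf h ha ha1 hx) hCen (D' := 72)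
    fun X x₁ x₂ hX => ?_
  · rw [div_le_div_iff_of_pos_right hM0, hk]
    linarith
  · rw [div_lt_iff₀ hM0, hk]
    linarith
  · intro X x₁ x₂ hX ξ hξ η hη h9 _
    have hne := hX.ne _ (pt_mem_RectH hξ hη)
    obtain ⟨l1, l2, a1, a2, a3, a4, h1⟩ := hpt' (X (pt ξ η)) (deriv X (pt ξ η)) hne η hη h9
    have hu : 0 ≤ 1 + ‖X (pt ξ η) - 1‖ ^ 2 := by positivity
    refine ⟨0, l1 / g.s.d.c.M, l2 / g.s.d.c.M, le_rfl,
      mul_nonneg (div_nonneg hB0 hM0.le) hu,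
      div_nonneg a1 hM0.le, (div_le_div_of_nonneg_right a2 hM0.le).trans
        (le_of_eq (mul_div_right_comm _ _ _)), div_nonneg a3 hM0.le,
      (div_le_div_of_nonneg_right a4 hM0.le).trans
        (le_of_eq (mul_div_right_comm _ _ _)), ?_⟩
    simp only [hre2, hre1]
    unfold TG Mt
    generalize X (pt ξ η) = Z at *
    generalize deriv X (pt ξ η) = Y at *
    have e0 : ‖Z - 1‖ ^ 2 = ‖Z‖ ^ 2 - 2 * Z.re + 1 := by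
      rw [Pool.Agent.Helper69.EK3.nq_sq, Pool.Agent.Helper69.EK3.nq_sq]
      simp
      ring
    rw [e0] at h1
    refine le_of_mul_le_mul_left (le_trans (le_of_eq ?_) (h1.trans (le_of_eq ?_))) hM0
    · field_simp
      ring
    · field_simp
      ring
  · obtain ⟨δ, c1, c2, c3, c4⟩ := Pool.Agent.Helper84.CB.CenQP.re_le hX
    exact ⟨δ, c1, c2, fun ξ hξ => (re_le_norm _).trans (c3 ξ hξ), c4⟩

/-- **the bound for one target from the data** -/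
theorem K_dataG {ka kb p0 p1 p2 la lb q0 q1 q2 : ℝ} {Ln Ld Ln' Ld' : ℤ}
    (o : g.Ok ka kb p0 p1 p2 la lb q0 q1 q2 Ln Ld Ln' Ld')
    (hIn : Pool.Sos71.SideG g.s.d.c.K Ln Ld g.tIn)
    (hOut : Pool.Sos71.SideG g.s.d.c.K Ln' Ld' g.tOut)
    (hz : Zeq g.s.d.MI g.s.d.MO) (c10 : 0 ≤ g.s.d.c.c1) (del0 : 0 ≤ g.s.d.del)
    (hC : CenE (g.Ecp g.s.d.c.c1 (355 / 113))) {κ : ℝ}
    (hκ : (g.s.d.c.lam : ℝ) + g.s.d.c.c1 + (|(g.s.d.c.c1 : ℝ) - g.s.d.kb| +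
      2 * |(g.s.d.c.a2 : ℝ)|) / 10 ^ 7 < 2 * κ * g.s.d.c.M)
    {G : ℂ → ℂ} {L : ℝ} (hG : GLip G L) (hGc : ∀ m, G (conj m) = conj (G m))
    (hF : Fld G ka kb p0 p1 p2 la lb q0 q1 q2) :
    ∃ e C V₀ a₀ : ℝ, 0 < e ∧ 0 ≤ C ∧ 0 < V₀ ∧ a₀ < 1 ∧
      ∀ (β : ℂ → ℂ) (R a V : ℝ) (Ω Ω₁ Ω₂ : ℝ → ℝ → ℝ), ExtR β R → a₀ < a → a < 1 →
      0 ≤ V → V ≤ V₀ → WtF (Real.log (tau a) + 1) (-1) V Ω Ω₁ Ω₂ →
      Kf (wf G β) 1 (-1) (Real.log a) +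
          e * II (Real.log (tau a) + 1) (-1) (fun ξ η => ‖Xf β a (pt ξ η) - 1‖ ^ 2) ≤
        κ * Real.log (‖N β a‖ / (1 - a ^ 2)) +
          π⁻¹ * II (Real.log (tau a) + 1) (-1) (fun ξ η => Ω ξ η *
            Mt (g.s.Mu p0 p1 p2 q0 q1 q2) (1 + g.s.tn / g.s.td) (Xf β a) ξ η) +
          4 * π⁻¹ * II (Real.log (tau a) + 1) (-1) (fun ξ η => 1 - Ω ξ η) +
          (g.s.d.del : ℝ) / g.s.d.c.M * (-1 - (Real.log (tau a) + 1)) +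
          C * (1 + V * (-1 - (Real.log (tau a) + 1))) := by
  refine K_pwG (DatG.wf_iff g o.wf) o.M0 o.lam0 c10 del0 hG hGc
    (Mq_cont o.inL o.outL (Zeq_scl hz) _) (fun m => DatT.Mu_conj m) ?_ hC hκ
  obtain ⟨B, hB, h⟩ := o.pointG hIn hOut
  refine ⟨B, hB, fun X Y hX η hη h9 => ?_⟩
  obtain ⟨l1, l2, a1, a2, a3, a4, h1⟩ := h G hF X Y hX η hη h9
  refine ⟨l1, l2, a1, a2, a3, a4, ?_⟩
  push_cast
  exact h1

/-- the field `Gp` -/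
theorem K_data_GpG {ka kb p0 p1 p2 la lb q0 q1 q2 : ℝ} {Ln Ld Ln' Ld' : ℤ}
    (o : g.Ok ka kb p0 p1 p2 la lb q0 q1 q2 Ln Ld Ln' Ld')
    (hIn : Pool.Sos71.SideG g.s.d.c.K Ln Ld g.tIn)
    (hOut : Pool.Sos71.SideG g.s.d.c.K Ln' Ld' g.tOut)
    (hz : Zeq g.s.d.MI g.s.d.MO) (c10 : 0 ≤ g.s.d.c.c1) (del0 : 0 ≤ g.s.d.del)
    (hC : CenE (g.Ecp g.s.d.c.c1 (355 / 113))) {κ : ℝ}
    (hκ : (g.s.d.c.lam : ℝ) + g.s.d.c.c1 + (|(g.s.d.c.c1 : ℝ) - g.s.d.kb| +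
      2 * |(g.s.d.c.a2 : ℝ)|) / 10 ^ 7 < 2 * κ * g.s.d.c.M) :
    ∃ e C V₀ a₀ : ℝ, 0 < e ∧ 0 ≤ C ∧ 0 < V₀ ∧ a₀ < 1 ∧
      ∀ (β : ℂ → ℂ) (R a V : ℝ) (Ω Ω₁ Ω₂ : ℝ → ℝ → ℝ), ExtR β R → a₀ < a → a < 1 →
      0 ≤ V → V ≤ V₀ → WtF (Real.log (tau a) + 1) (-1) V Ω Ω₁ Ω₂ →
      Kf (wf (Pool.Agent.Helper20.EK7.Gp ka kb p0 p1 p2 la lb q0 q1 q2) β) 1 (-1) (Real.log a) +
          e * II (Real.log (tau a) + 1) (-1) (fun ξ η => ‖Xf β a (pt ξ η) - 1‖ ^ 2) ≤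
        κ * Real.log (‖N β a‖ / (1 - a ^ 2)) +
          π⁻¹ * II (Real.log (tau a) + 1) (-1) (fun ξ η => Ω ξ η *
            Mt (g.s.Mu p0 p1 p2 q0 q1 q2) (1 + g.s.tn / g.s.td) (Xf β a) ξ η) +
          4 * π⁻¹ * II (Real.log (tau a) + 1) (-1) (fun ξ η => 1 - Ω ξ η) +
          (g.s.d.del : ℝ) / g.s.d.c.M * (-1 - (Real.log (tau a) + 1)) +
          C * (1 + V * (-1 - (Real.log (tau a) + 1))) := by
  obtain ⟨CG, hGl⟩ := Pool.Agent.Helper20.EK7.Gp_glip (a := ka) (b := kb) (b' := lb) o.inL o.outL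
  exact K_dataG o hIn hOut hz c10 del0 hC hκ hGl (Pool.Agent.Helper20.EK7.Gp_conj _ _ _ _ _ _ _ _ _ _)
    (fld_Gp _ _ _ _ _ _ _ _ _ _)

end Pool.Agent.Helper65.CK
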