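import Pool.Agent.Helper84.CK.CenW
import Pool.Agent.Helper71.CK.DatG
import Pool.Agent.Helper84.CB.CenE
import Pool.Agent.Helper20.CK.MGlob
set_option autoImplicit false
open Complex MeasureTheory Metric Set
open scoped Real ComplexConjugate

/-!
# Project CK: from the data of a certificate to the bound for one target
-/

namespace Pool.Agent.Helper65.CK

open Pool.Agent.Helper39.Area Pool.Agent.Helper52.EK
open Pool.Agent.Helper69.CK Pool.Agent.Helper84.CK Pool.Agent.Helper71.CK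
open Pool.Agent.Helper84.CB (RegQ CenQP Q_lowQ bq CenE line_hd q_hd cenQP_Xf)
open Pool.Agent.Helper69.EK3 (NiceH RectH pt_mem_RectH)
open Pool.Agent.Helper20.CK (Zeq Mq_lip)
open Pool.Agent.Helper2.EK (c1_sub)

/-! ### the centre line -/

/-- the centre terms against a cut-off, from an inequality on the region `RegQ` -/
theorem cenW_q {Kl : (ℂ → ℂ) → ℝ → ℝ} {Q : ℂ → ℂ → ℂ → ℝ} {Wc : ℂ → ℂ → ℝ}
    (hQ : ∀ X q b : ℂ, RegQ X q b → 0 ≤ Q X q b)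
    (hQL : LocallyLipschitz fun p : ℂ × ℂ × ℂ => Q p.1 p.2.1 p.2.2)
    (cW : Continuous fun p : ℂ × ℂ => Wc p.1 p.2)
    (cK : ∀ (X : ℂ → ℂ) (x₁ x₂ : ℝ), NiceH X x₁ x₂ → ContinuousOn (Kl X) (Icc x₁ x₂))
    (hd : ∀ (X : ℂ → ℂ) (x₁ x₂ : ℝ), NiceX X x₁ x₂ → ∀ ξ ∈ Icc x₁ x₂,
      HasDerivAt (fun t : ℝ => Wc (X (pt t (π / 2))) (deriv X (pt t (π / 2)) / X (pt t (π / 2))))
        (-(Kl X ξ + Kl (Pool.Agent.Helper69.EK3.mir X) ξ) - Q (X (pt ξ (π / 2)))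
          (deriv X (pt ξ (π / 2)) / X (pt ξ (π / 2)))
          (bq (X (pt ξ (π / 2))) (deriv X (pt ξ (π / 2))) (deriv (deriv X) (pt ξ (π / 2))))) ξ) :
    ∃ C' : ℝ, ∀ (x₁ x₂ V : ℝ) (χ χ₁ : ℝ → ℝ) (X : ℂ → ℂ),
      Cut1 x₁ x₂ V χ χ₁ → x₁ ≤ x₂ → 0 ≤ V → NiceX X x₁ x₂ → CenQP X x₁ x₂ →
      ∫ ξ in x₁..x₂, χ ξ * (Kl X ξ + Kl (Pool.Agent.Helper69.EK3.mir X) ξ) ≤
        C' * (1 + V * (x₂ - x₁)) := by
  obtain ⟨M, hM, hlow⟩ := Q_lowQ hQ hQL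
  obtain ⟨B, hB⟩ := (isCompact_closedBall (0 : ℂ × ℂ) 18).bddAbove_image cW.abs.continuousOn
  have hB' : ∀ Z ∈ closedBall (0 : ℂ × ℂ) 18, |Wc Z.1 Z.2| ≤ B :=
    fun Z hZ => hB (mem_image_of_mem _ hZ)
  have hB0 : 0 ≤ B := (abs_nonneg _).trans (hB' 0 (by simp))
  refine ⟨M * 8 + B, fun x₁ x₂ V χ χ₁ X hc hx hV hX hP => ?_⟩
  obtain ⟨ρ, cρ, hρ, hI, hR⟩ := hP
  have hXh := Pool.Agent.Helper69.EK3.NiceX.half hX
  obtain ⟨e, he⟩ : ∃ e : ℝ → ℝ, e = fun ξ => Kl X ξ + Kl (Pool.Agent.Helper69.EK3.mir X) ξ :=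
    ⟨_, rfl⟩
  have ce : ContinuousOn e (Icc x₁ x₂) := by
    rw [he]
    exact (cK X x₁ x₂ hXh).add (cK _ x₁ x₂ (Pool.Agent.Helper69.EK3.NiceX.mir hX))
  obtain ⟨x, hxd⟩ : ∃ x : ℝ → ℂ, x = fun ξ => X (pt ξ (π / 2)) := ⟨_, rfl⟩
  obtain ⟨y, hyd⟩ : ∃ y : ℝ → ℂ, y = fun ξ => deriv X (pt ξ (π / 2)) := ⟨_, rfl⟩
  obtain ⟨z, hzd⟩ : ∃ z : ℝ → ℂ, z = fun ξ => deriv (deriv X) (pt ξ (π / 2)) := ⟨_, rfl⟩
  have cx : ContinuousOn x (Icc x₁ x₂) := by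
    rw [hxd]; exact Pool.Agent.Helper69.EK3.contC hXh.an.continuousOn
  have cy : ContinuousOn y (Icc x₁ x₂) := by
    rw [hyd]; exact Pool.Agent.Helper69.EK3.contC hXh.an.deriv.continuousOn
  have cz : ContinuousOn z (Icc x₁ x₂) := by
    rw [hzd]; exact Pool.Agent.Helper69.EK3.contC hXh.an.deriv.deriv.continuousOn
  have hne : ∀ ξ ∈ Icc x₁ x₂, x ξ ≠ 0 := fun ξ hξ => by
    rw [hxd]; exact hXh.ne _ (Pool.Agent.Helper69.EK3.cent_mem hξ)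
  obtain ⟨q, hqd⟩ : ∃ q : ℝ → ℝ, q = fun ξ => Q (x ξ) (y ξ / x ξ) (bq (x ξ) (y ξ) (z ξ)) :=
    ⟨_, rfl⟩
  obtain ⟨w, hwd⟩ : ∃ w : ℝ → ℝ, w = fun ξ => Wc (x ξ) (y ξ / x ξ) := ⟨_, rfl⟩
  have cyx : ContinuousOn (fun ξ => y ξ / x ξ) (Icc x₁ x₂) := cy.div cx hne
  have cq : ContinuousOn q (Icc x₁ x₂) := by
    rw [hqd]
    have cb : ContinuousOn (fun ξ => bq (x ξ) (y ξ) (z ξ)) (Icc x₁ x₂) := by
      unfold bq
      exact ((((continuousOn_const.sub (cx.pow 2)).add (continuousOn_const.mul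
        (cz.div cx hne))).sub (continuousOn_const.mul (cyx.pow 2))).div_const _)
    exact hQL.continuous.comp_continuousOn (cx.prodMk (cyx.prodMk cb))
  have cw : ContinuousOn w (Icc x₁ x₂) := by
    rw [hwd]
    exact cW.comp_continuousOn (cx.prodMk cyx)
  have hd' : ∀ ξ ∈ Icc x₁ x₂, HasDerivAt w (- e ξ - q ξ) ξ := by
    intro ξ hξ
    rw [hwd, hqd, hxd, hyd, hzd, he]
    exact hd X x₁ x₂ hX ξ hξ
  have cχ := hc.c0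
  have cχ1 := hc.c1
  have i1 : IntervalIntegrable (fun ξ => χ ξ * e ξ) volume x₁ x₂ :=
    (cχ.mul ce).intervalIntegrable_of_Icc hx
  have i2 : IntervalIntegrable (fun ξ => χ ξ * q ξ) volume x₁ x₂ :=
    (cχ.mul cq).intervalIntegrable_of_Icc hx
  have i3 : IntervalIntegrable (fun ξ => χ₁ ξ * w ξ) volume x₁ x₂ :=
    (cχ1.mul cw).intervalIntegrable_of_Icc hx
  have hF : ∫ ξ in x₁..x₂, (χ₁ ξ * w ξ + χ ξ * (- e ξ - q ξ)) = 0 := by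
    have hi : IntervalIntegrable (fun ξ => χ₁ ξ * w ξ + χ ξ * (- e ξ - q ξ)) volume x₁ x₂ :=
      ((cχ1.mul cw).add (cχ.mul (ce.neg.sub cq))).intervalIntegrable_of_Icc hx
    have h0 := intervalIntegral.integral_eq_sub_of_hasDerivAt (f := fun ξ => χ ξ * w ξ)
      (f' := fun ξ => χ₁ ξ * w ξ + χ ξ * (- e ξ - q ξ)) (fun ξ hξ => by
        rw [uIcc_of_le hx] at hξ
        exact (hc.d ξ hξ).mul (hd' ξ hξ)) hi
    rw [h0]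
    simp [hc.e1, hc.e2]
  have e1 : ∫ ξ in x₁..x₂, (χ₁ ξ * w ξ + χ ξ * (- e ξ - q ξ)) =
      (∫ ξ in x₁..x₂, χ₁ ξ * w ξ) - (∫ ξ in x₁..x₂, χ ξ * e ξ) -
        ∫ ξ in x₁..x₂, χ ξ * q ξ := by
    rw [← intervalIntegral.integral_sub i3 i1, ← intervalIntegral.integral_sub (i3.sub i1) i2]
    refine intervalIntegral.integral_congr fun ξ _ => ?_
    ring
  rw [e1] at hF
  have b1 : -(M * 8) ≤ ∫ ξ in x₁..x₂, χ ξ * q ξ := by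
    have h1 : ∫ ξ in x₁..x₂, -(M * (1 - ρ ξ)) ≤ ∫ ξ in x₁..x₂, χ ξ * q ξ := by
      refine intervalIntegral.integral_mono_on hx
        ((continuous_const.mul (continuous_const.sub cρ)).neg.intervalIntegrable _ _) i2
        fun ξ hξ => ?_
      have h2 := hR ξ hξ
      have h3 := hlow _ _ _ (ρ ξ) (hρ ξ).1 (hρ ξ).2 h2
      have h4 : -(M * (1 - ρ ξ)) ≤ q ξ := by
        rw [hqd, hxd, hyd, hzd]
        exact h3
      have h5 := hc.b01 ξ hξ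
      have h6 : 0 ≤ M * (1 - ρ ξ) := mul_nonneg hM (by linarith [(hρ ξ).2])
      nlinarith
    rw [intervalIntegral.integral_neg, intervalIntegral.integral_const_mul] at h1
    have := mul_le_mul_of_nonneg_left hI hM
    linarith
  have b2 : ∫ ξ in x₁..x₂, χ₁ ξ * w ξ ≤ B * (V * (x₂ - x₁)) := by
    have h1 : ∫ ξ in x₁..x₂, χ₁ ξ * w ξ ≤ ∫ _ in x₁..x₂, B * V := by
      refine intervalIntegral.integral_mono_on hx i3 (by simp) fun ξ hξ => ?_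
      have h2 : |w ξ| ≤ B := by
        rw [hwd]
        refine hB' (x ξ, y ξ / x ξ) ?_
        have hr := hR ξ hξ
        obtain ⟨r1, r2⟩ := hρ ξ
        have hρ0 : 0 < ρ ξ := by linarith
        have hρn : ‖(ρ ξ : ℂ)‖ = ρ ξ := by rw [norm_real, Real.norm_of_nonneg hρ0.le]
        have x1 := hr.le
        have q1 := hr.q_le
        rw [norm_mul, hρn] at x1 q1
        rw [mem_closedBall_zero_iff, Prod.norm_def, hxd, hyd]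
        refine max_le ?_ ?_
        · simp only
          nlinarith [norm_nonneg (X (pt ξ (π / 2)))]
        · simp only
          nlinarith [norm_nonneg (deriv X (pt ξ (π / 2)) / X (pt ξ (π / 2)))]
      calc χ₁ ξ * w ξ ≤ |χ₁ ξ * w ξ| := le_abs_self _
        _ = |w ξ| * |χ₁ ξ| := by rw [abs_mul, mul_comm]
        _ ≤ B * V := mul_le_mul h2 (hc.k1 ξ hξ) (abs_nonneg _) hB0
    rw [intervalIntegral.integral_const, smul_eq_mul] at h1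
    linarith
  have h9 : ∫ ξ in x₁..x₂, χ ξ * (Kl X ξ + Kl (Pool.Agent.Helper69.EK3.mir X) ξ) =
      ∫ ξ in x₁..x₂, χ ξ * e ξ := by rw [he]
  rw [h9]
  have hVd : 0 ≤ V * (x₂ - x₁) := mul_nonneg hV (by linarith)
  have h10 : 0 ≤ M * 8 * (V * (x₂ - x₁)) := by positivity
  linarith [mul_add (M * 8 + B) 1 (V * (x₂ - x₁)), add_mul (M * 8) B (V * (x₂ - x₁))]

/-- the centre terms which depend on `X` only -/
theorem cenW_E {E : ℂ → ℝ} (hE : CenE E) {Kl : (ℂ → ℂ) → ℝ → ℝ}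
    (cK : ∀ (X : ℂ → ℂ) (x₁ x₂ : ℝ), NiceH X x₁ x₂ → ContinuousOn (Kl X) (Icc x₁ x₂))
    (hK : ∀ (X : ℂ → ℂ) (x₁ x₂ : ℝ), NiceX X x₁ x₂ → ∀ ξ ∈ Icc x₁ x₂,
      Kl X ξ + Kl (Pool.Agent.Helper69.EK3.mir X) ξ = - E (X (pt ξ (π / 2)))) :
    ∃ C' : ℝ, ∀ (x₁ x₂ V : ℝ) (χ χ₁ : ℝ → ℝ) (X : ℂ → ℂ),
      Cut1 x₁ x₂ V χ χ₁ → x₁ ≤ x₂ → 0 ≤ V → NiceX X x₁ x₂ → CenQP X x₁ x₂ →
      ∫ ξ in x₁..x₂, χ ξ * (Kl X ξ + Kl (Pool.Agent.Helper69.EK3.mir X) ξ) ≤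
        C' * (1 + V * (x₂ - x₁)) := by
  obtain ⟨Q, Wc, h1, h2, h3, h4⟩ := hE
  refine cenW_q h1 h2 h3 cK fun X x₁ x₂ hX ξ hξ => ?_
  have hXh := Pool.Agent.Helper69.EK3.NiceX.half hX
  have hm := Pool.Agent.Helper69.EK3.cent_mem hξ
  have n0 := hXh.ne _ hm
  have d1 := line_hd (hXh.an _ hm)
  have d2 := line_hd (hXh.an _ hm).deriv
  have e : X (pt ξ (π / 2)) * (deriv X (pt ξ (π / 2)) / X (pt ξ (π / 2))) =
      deriv X (pt ξ (π / 2)) := by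
    field_simp
  rw [hK X x₁ x₂ hX ξ hξ, neg_neg]
  exact h4 (fun t => X (pt t (π / 2)))
    (fun t => deriv X (pt t (π / 2)) / X (pt t (π / 2)))
    (bq (X (pt ξ (π / 2))) (deriv X (pt ξ (π / 2))) (deriv (deriv X) (pt ξ (π / 2)))) ξ
    (by
      rw [e]
      exact d1) (q_hd d1 d2 n0)

/-! ### continuity of the multiplier -/

theorem Zeq_scl {td : ℤ} {MI MO : List (ℕ × ℕ × ℤ)} (h : Zeq MI MO) :
    Zeq (scl td MI) (scl td MO) := by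
  have e : ∀ L : List (ℕ × ℕ × ℤ), (scl td L).filter (fun t => t.1 == 0) =
      scl td (L.filter fun t => t.1 == 0) := by
    intro L
    unfold scl
    rw [List.filter_map]
    rfl
  unfold Zeq at h ⊢
  rw [e, e, h]

theorem Mq_cont {a p0 p1 p2 q0 q1 q2 : ℝ} {MI MO : List (ℕ × ℕ × ℤ)}
    (hp : Pool.Agent.Helper20.EK7.InL p0 p1 p2) (hq : Pool.Agent.Helper20.EK7.OutL a q0 q1 q2)
    (hz : Zeq MI MO) (M : ℤ) : Continuous (Mq M MI MO p0 p1 p2 q0 q1 q2) := by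
  rw [continuous_iff_continuousAt]
  intro m
  obtain ⟨C, h0, -, h2⟩ := Mq_lip hp hq hz M (‖m‖ + 1)
  have h3 : ContinuousOn (Mq M MI MO p0 p1 p2 q0 q1 q2) (ball m 1) := by
    refine (LipschitzOnWith.of_dist_le_mul (K := ⟨C, h0⟩) fun u hu v hv => ?_).continuousOn
    rw [dist_eq_norm, dist_eq_norm]
    have g : ∀ u ∈ ball m 1, ‖u‖ ≤ ‖m‖ + 1 := by
      intro u hu
      rw [mem_ball, dist_eq_norm] at hu
      have e : u = m + (u - m) := by ring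
      rw [e]
      exact (norm_add_le _ _).trans (by linarith)
    exact h2 u v (g u hu) (g v hv)
  exact h3.continuousAt (ball_mem_nhds m one_pos)

/-! ### the bound for one target -/

variable {g : DatG}

/-- **the bound for one target from the pointwise inequality of the data**, for a field `G` and a
multiplier `M` -/
theorem K_pw (w : g.Wf) (M0 : 0 < g.s.d.c.M) (lam0 : 0 ≤ g.s.d.c.lam)
    (c10 : 0 ≤ g.s.d.c.c1) (del0 : 0 ≤ g.s.d.del) {G M : ℂ → ℂ} {L q : ℝ} (hG : GLip G L)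
    (hGc : ∀ m, G (conj m) = conj (G m)) (hM : Continuous M)
    (hMc : ∀ m, M (conj m) = conj (M m))
    (hpt : ∃ B : ℝ, 0 ≤ B ∧ ∀ X Y : ℂ, X ≠ 0 → ∀ η ∈ Icc (0:ℝ) (π / 2), ∃ l1 l2 : ℝ,
      0 ≤ l1 ∧ l1 ≤ B ∧ 0 ≤ l2 ∧ l2 ≤ B ∧
      g.s.d.c.M * ‖G (mX X Y (Real.sin η) (Real.cos η)) - e0 (Real.sin η) (Real.cos η)‖ ^ 2 +
        (l1 * (16 - ‖Pool.Agent.Helper69.EK3.dA 1 X Y (Real.sin η) (Real.cos η)‖ ^ 2) +
          l2 * (16 - ‖Pool.Agent.Helper69.EK3.dA (-1) X Y (Real.sin η) (Real.cos η)‖ ^ 2)) ≤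
        g.NT X Y η + (g.s.d.c.lam * ‖X - 1‖ ^ 2 + g.s.d.c.a2 * ((X.re - 1) ^ 2 - X.im ^ 2)) +
          (g.s.d.kb * (1 - X.re) + g.s.d.del) +
          g.s.d.c.M * (M (mX X Y (Real.sin η) (Real.cos η)) *
            e0 (Real.sin η) (Real.cos η) * (X ^ 2 - q)).re)
    (hC : CenE (g.Ecp g.s.d.c.c1 (355 / 113))) {κ : ℝ}
    (hκ : (g.s.d.c.lam : ℝ) + g.s.d.c.c1 + (|(g.s.d.c.c1 : ℝ) - g.s.d.kb| +
      2 * |(g.s.d.c.a2 : ℝ)|) / 10 ^ 7 < 2 * κ * g.s.d.c.M) :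
    ∃ e C V₀ a₀ : ℝ, 0 < e ∧ 0 ≤ C ∧ 0 < V₀ ∧ a₀ < 1 ∧
      ∀ (β : ℂ → ℂ) (R a V : ℝ) (Ω Ω₁ Ω₂ : ℝ → ℝ → ℝ), ExtR β R → a₀ < a → a < 1 →
      0 ≤ V → V ≤ V₀ → WtF (Real.log (tau a) + 1) (-1) V Ω Ω₁ Ω₂ →
      Kf (wf G β) 1 (-1) (Real.log a) +
          e * II (Real.log (tau a) + 1) (-1) (fun ξ η => ‖Xf β a (pt ξ η) - 1‖ ^ 2) ≤
        κ * Real.log (‖N β a‖ / (1 - a ^ 2)) +
          π⁻¹ * II (Real.log (tau a) + 1) (-1) (fun ξ η => Ω ξ η * Mt M q (Xf β a) ξ η) +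
          4 * π⁻¹ * II (Real.log (tau a) + 1) (-1) (fun ξ η => 1 - Ω ξ η) +
          (g.s.d.del : ℝ) / g.s.d.c.M * (-1 - (Real.log (tau a) + 1)) +
          C * (1 + V * (-1 - (Real.log (tau a) + 1))) := by
  have hM0 : (0:ℝ) < g.s.d.c.M := by exact_mod_cast M0
  have hlam : (0:ℝ) ≤ g.s.d.c.lam := by exact_mod_cast lam0
  have hc1 : (0:ℝ) ≤ g.s.d.c.c1 := by exact_mod_cast c10
  have hdel : (0:ℝ) ≤ g.s.d.del := by exact_mod_cast del0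
  obtain ⟨p, hp⟩ : ∃ p : ℝ, p = 355 / 113 := ⟨_, rfl⟩
  obtain ⟨e1, e2⟩ := Pool.Agent.Helper69.EK3.Dat.pi_err hp
  have hpi := Real.pi_pos
  obtain ⟨A, hA⟩ : ∃ A : ℝ, A = |(g.s.d.c.c1 : ℝ) - g.s.d.kb| + 2 * |(g.s.d.c.a2 : ℝ)| :=
    ⟨_, rfl⟩
  have hA0 : 0 ≤ A := by rw [hA]; positivity
  obtain ⟨ε, hε⟩ : ∃ ε : ℝ, ε = A * ((p - π) / π) := ⟨_, rfl⟩
  have hε0 : 0 ≤ ε := by
    rw [hε]
    exact mul_nonneg hA0 (div_nonneg e1 hpi.le)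
  have hε1 : ε ≤ A / 10 ^ 7 := by
    rw [hε, div_eq_mul_one_div A (10 ^ 7 : ℝ)]
    exact mul_le_mul_of_nonneg_left e2 hA0
  have hεπ : ε * π = A * (p - π) := by
    rw [hε]
    field_simp
  rw [← hA] at hκ
  rw [hA] at hεπ
  obtain ⟨k, hk⟩ : ∃ k : ℝ, k = g.s.d.c.c1 + ε := ⟨_, rfl⟩
  have n1 := (isNullW_har (P := Pool.Agent.Helper69.EK3.DiscP) (β := fun _ => (1:ℝ))
    continuous_const 2 le_rfl).const_mul (g.s.d.c.a2 : ℝ)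
  have n2 := (isNullW_har (P := Pool.Agent.Helper69.EK3.DiscP) (β := fun _ => (1:ℝ))
    continuous_const 1 (by norm_num)).const_mul (k - g.s.d.kb)
  have hN := (((DatG.isNullW_NT w).add n1).add n2).const_mul (1 / (g.s.d.c.M : ℝ))
  have hre2 : ∀ X : ℂ, ((X - 1) ^ 2).re = (X.re - 1) ^ 2 - X.im ^ 2 := by
    intro X
    rw [pow_two (X - 1), mul_re]
    simp
    ring
  have hre1 : ∀ X : ℂ, ((X - 1) ^ 1).re = X.re - 1 := by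
    intro X
    simp
  have hint : ∫ _ in (0:ℝ)..(π / 2), (1:ℝ) = π / 2 := by simp
  obtain ⟨B, hB0, hpt'⟩ := hpt
  -- the centre condition
  have hC1 : CenE (g.Ecp k π) := by
    obtain ⟨Fx, Fy, hF⟩ : ∃ Fx Fy : ℂ → ℝ,
        C1f (fun X => g.Ecp k π X - g.Ecp g.s.d.c.c1 (355 / 113) X) Fx Fy := by
      obtain ⟨Ax, Ay, hA'⟩ := DatG.Ecp_c1 (g := g) k π
      obtain ⟨Bx, By, hB'⟩ := DatG.Ecp_c1 (g := g) g.s.d.c.c1 (355 / 113)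
      exact ⟨_, _, c1_sub hA' hB'⟩
    refine hC.add hF (fun X => by ring) fun X hX => ?_
    rw [← hp, hk]
    exact DatG.Ecp_pi e1 hεπ hX
  have hC2 : CenE fun X => 1 / (g.s.d.c.M : ℝ) * g.Ecp k π X := hC1.const_mul (by positivity)
  have hCen := cenW_E hC2 hN.cK (by
    intro X x₁ x₂ hX ξ hξ
    have hm : pt ξ (π - π / 2) ∈ Rect x₁ x₂ := by
      have h9 := Pool.Agent.Helper69.EK3.mir_mem (pt_mem_RectH (h := π / 2) hξ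
        (⟨by positivity, le_rfl⟩ : π / 2 ∈ Icc (0:ℝ) (π / 2)))
      rwa [Pool.Agent.Helper69.EK3.conj_pt] at h9
    have hA9 : AnalyticAt ℂ X (pt ξ (π - π / 2)) := hX.an _ hm
    have h1 := DatG.KT_conj w (X (pt ξ (π / 2))) (deriv X (pt ξ (π / 2))) k
    simp only [hre2, hre1, hint]
    rw [Pool.Agent.Helper69.EK3.mir_pt, Pool.Agent.Helper69.EK3.mir_deriv_pt
      hA9.differentiableAt]
    have e9 : π - π / 2 = π / 2 := by ring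
    rw [e9]
    linear_combination (1 / (g.s.d.c.M : ℝ)) * h1)
  refine K_oneW_1 (B := B / g.s.d.c.M) (lam := g.s.d.c.lam / g.s.d.c.M)
    (k₂ := (g.s.d.c.lam + k) / g.s.d.c.M) (dc := (g.s.d.del : ℝ) / g.s.d.c.M)
    (div_nonneg hB0 hM0.le) (div_nonneg hlam hM0.le) ?_ (div_nonneg hdel hM0.le) ?_ hG hGc hM hMc
    hN ?_ (fun β R a h ha ha1 hx => cenQP_Xf h ha ha1 hx) hCen (D' := 72)
    fun X x₁ x₂ hX => ?_
  · rw [div_le_div_iff_of_pos_right hM0, hk]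
    linarith
  · rw [div_lt_iff₀ hM0, hk]
    linarith
  · intro X x₁ x₂ hX ξ hξ η hη _ _
    have hne := hX.ne _ (pt_mem_RectH hξ hη)
    obtain ⟨l1, l2, a1, a2, a3, a4, h1⟩ := hpt' (X (pt ξ η)) (deriv X (pt ξ η)) hne η hη
    refine ⟨0, l1 / g.s.d.c.M, l2 / g.s.d.c.M, le_rfl, div_nonneg hB0 hM0.le,
      div_nonneg a1 hM0.le, div_le_div_of_nonneg_right a2 hM0.le, div_nonneg a3 hM0.le,
      div_le_div_of_nonneg_right a4 hM0.le, ?_⟩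
    simp only [hre2, hre1]
    unfold TG Mt
    generalize X (pt ξ η) = Z at *
    generalize deriv X (pt ξ η) = Y at *
    have e0 : ‖Z - 1‖ ^ 2 = ‖Z‖ ^ 2 - 2 * Z.re + 1 := by
      rw [Pool.Agent.Helper69.EK3.nq_sq, Pool.Agent.Helper69.EK3.nq_sq]
      simp
      ring
    rw [e0] at h1
    refine le_of_mul_le_mul_left (le_trans (le_of_eq ?_) (h1.trans (le_of_eq ?_))) hM0
    · field_simp
      ring
    · field_simp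
      ring
  · obtain ⟨δ, c1, c2, c3, c4⟩ := Pool.Agent.Helper84.CB.CenQP.re_le hX
    exact ⟨δ, c1, c2, fun ξ hξ => (re_le_norm _).trans (c3 ξ hξ), c4⟩

/-- **the bound for one target from the data** -/
theorem K_data {ka kb p0 p1 p2 la lb q0 q1 q2 : ℝ} {Ln Ld Ln' Ld' : ℤ}
    (o : g.Ok ka kb p0 p1 p2 la lb q0 q1 q2 Ln Ld Ln' Ld')
    (hIn : Pool.Agent.Helper69.EK6.Side g.s.d.c.K Ln Ld g.tIn)
    (hOut : Pool.Agent.Helper69.EK6.Side g.s.d.c.K Ln' Ld' g.tOut)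
    (hz : Zeq g.s.d.MI g.s.d.MO) (c10 : 0 ≤ g.s.d.c.c1) (del0 : 0 ≤ g.s.d.del)
    (hC : CenE (g.Ecp g.s.d.c.c1 (355 / 113))) {κ : ℝ}
    (hκ : (g.s.d.c.lam : ℝ) + g.s.d.c.c1 + (|(g.s.d.c.c1 : ℝ) - g.s.d.kb| +
      2 * |(g.s.d.c.a2 : ℝ)|) / 10 ^ 7 < 2 * κ * g.s.d.c.M)
    {G : ℂ → ℂ} {L : ℝ} (hG : GLip G L) (hGc : ∀ m, G (conj m) = conj (G m))
    (hF : Fld G ka kb p0 p1 p2 la lb q0 q1 q2) :
    ∃ e C V₀ a₀ : ℝ, 0 < e ∧ 0 ≤ C ∧ 0 < V₀ ∧ a₀ < 1 ∧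
      ∀ (β : ℂ → ℂ) (R a V : ℝ) (Ω Ω₁ Ω₂ : ℝ → ℝ → ℝ), ExtR β R → a₀ < a → a < 1 →
      0 ≤ V → V ≤ V₀ → WtF (Real.log (tau a) + 1) (-1) V Ω Ω₁ Ω₂ →
      Kf (wf G β) 1 (-1) (Real.log a) +
          e * II (Real.log (tau a) + 1) (-1) (fun ξ η => ‖Xf β a (pt ξ η) - 1‖ ^ 2) ≤
        κ * Real.log (‖N β a‖ / (1 - a ^ 2)) +
          π⁻¹ * II (Real.log (tau a) + 1) (-1) (fun ξ η => Ω ξ η *
            Mt (g.s.Mu p0 p1 p2 q0 q1 q2) (1 + g.s.tn / g.s.td) (Xf β a) ξ η) +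
          4 * π⁻¹ * II (Real.log (tau a) + 1) (-1) (fun ξ η => 1 - Ω ξ η) +
          (g.s.d.del : ℝ) / g.s.d.c.M * (-1 - (Real.log (tau a) + 1)) +
          C * (1 + V * (-1 - (Real.log (tau a) + 1))) := by
  refine K_pw (DatG.wf_iff g o.wf) o.M0 o.lam0 c10 del0 hG hGc
    (Mq_cont o.inL o.outL (Zeq_scl hz) _) (fun m => DatT.Mu_conj m) ?_ hC hκ
  obtain ⟨B, hB, h⟩ := o.point hIn hOut
  refine ⟨B, hB, fun X Y hX η hη => ?_⟩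
  obtain ⟨l1, l2, a1, a2, a3, a4, h1⟩ := h G hF X Y hX η hη
  refine ⟨l1, l2, a1, a2, a3, a4, ?_⟩
  push_cast
  exact h1

/-- the field `Gp` -/
theorem K_data_Gp {ka kb p0 p1 p2 la lb q0 q1 q2 : ℝ} {Ln Ld Ln' Ld' : ℤ}
    (o : g.Ok ka kb p0 p1 p2 la lb q0 q1 q2 Ln Ld Ln' Ld')
    (hIn : Pool.Agent.Helper69.EK6.Side g.s.d.c.K Ln Ld g.tIn)
    (hOut : Pool.Agent.Helper69.EK6.Side g.s.d.c.K Ln' Ld' g.tOut)
    (hz : Zeq g.s.d.MI g.s.d.MO) (c10 : 0 ≤ g.s.d.c.c1) (del0 : 0 ≤ g.s.d.del)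
    (hC : CenE (g.Ecp g.s.d.c.c1 (355 / 113))) {κ : ℝ}
    (hκ : (g.s.d.c.lam : ℝ) + g.s.d.c.c1 + (|(g.s.d.c.c1 : ℝ) - g.s.d.kb| +
      2 * |(g.s.d.c.a2 : ℝ)|) / 10 ^ 7 < 2 * κ * g.s.d.c.M) :
    ∃ e C V₀ a₀ : ℝ, 0 < e ∧ 0 ≤ C ∧ 0 < V₀ ∧ a₀ < 1 ∧
      ∀ (β : ℂ → ℂ) (R a V : ℝ) (Ω Ω₁ Ω₂ : ℝ → ℝ → ℝ), ExtR β R → a₀ < a → a < 1 →
      0 ≤ V → V ≤ V₀ → WtF (Real.log (tau a) + 1) (-1) V Ω Ω₁ Ω₂ →
      Kf (wf (Pool.Agent.Helper20.EK7.Gp ka kb p0 p1 p2 la lb q0 q1 q2) β) 1 (-1) (Real.log a) +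
          e * II (Real.log (tau a) + 1) (-1) (fun ξ η => ‖Xf β a (pt ξ η) - 1‖ ^ 2) ≤
        κ * Real.log (‖N β a‖ / (1 - a ^ 2)) +
          π⁻¹ * II (Real.log (tau a) + 1) (-1) (fun ξ η => Ω ξ η *
            Mt (g.s.Mu p0 p1 p2 q0 q1 q2) (1 + g.s.tn / g.s.td) (Xf β a) ξ η) +
          4 * π⁻¹ * II (Real.log (tau a) + 1) (-1) (fun ξ η => 1 - Ω ξ η) +
          (g.s.d.del : ℝ) / g.s.d.c.M * (-1 - (Real.log (tau a) + 1)) +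
          C * (1 + V * (-1 - (Real.log (tau a) + 1))) := by
  obtain ⟨CG, hGl⟩ := Pool.Agent.Helper20.EK7.Gp_glip (a := ka) (b := kb) (b' := lb) o.inL o.outL
  exact K_data o hIn hOut hz c10 del0 hC hκ hGl (Pool.Agent.Helper20.EK7.Gp_conj _ _ _ _ _ _ _ _ _ _)
    (fld_Gp _ _ _ _ _ _ _ _ _ _)

/-- the centre condition from a nonnegative polynomial on the unit disc -/
theorem cenE_pos (w : g.Wf)
    (hCen : ∀ x : Pool.Sos71.Pnt, 0 ≤ -2 * x.f - x.f ^ 2 - x.g ^ 2 →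
      0 ≤ (Pool.Sos71.Ex.bp g.cen).re x) : CenE (g.Ecp g.s.d.c.c1 (355 / 113)) := by
  obtain ⟨Ex, Ey, hE⟩ := DatG.Ecp_c1 (g := g) g.s.d.c.c1 (355 / 113)
  refine CenE.of_pos hE fun X hX => ?_
  have h1 : 0 ≤ (Pool.Sos71.Ex.bp g.cen).re ⟨0, 0, 0, 0, 0, X.re - 1, X.im⟩ := by
    apply hCen
    show 0 ≤ -2 * (X.re - 1) - (X.re - 1) ^ 2 - X.im ^ 2
    have h1 : X.re ^ 2 + X.im ^ 2 ≤ 1 := by
      rw [← Pool.Agent.Helper69.EK3.nq_sq]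
      nlinarith [norm_nonneg X]
    linarith
  have h2 : (Pool.Sos71.Ex.bp g.cen).re ⟨0, 0, 0, 0, 0, X.re - 1, X.im⟩ =
    Pool.EK71.ev2 (X.re - 1) X.im g.cen := rfl
  rw [h2, DatG.cen_ev w] at h1
  refine nonneg_of_mul_nonneg_right h1 ?_
  have := pow_pos (Pool.Agent.Helper69.EK5.Dd_pos g.s.d.c.a X.re X.im) g.s.d.c.K
  positivity

end Pool.Agent.Helper65.CK
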