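import Pool.Agent.Helper65.CK.KData
import Pool.Agent.Helper20.CK.DatF
set_option autoImplicit false
open Complex MeasureTheory Metric Set
open scoped Real ComplexConjugate

/-!
# Project CK: the bound for one target from the data with a general one-jet field
-/

namespace Pool.Agent.Helper65.CK

open Pool.Agent.Helper39.Area Pool.Agent.Helper52.EK
open Pool.Agent.Helper69.CK Pool.Agent.Helper84.CK Pool.Agent.Helper71.CK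
open Pool.Agent.Helper84.CB (CenE)
open Pool.Agent.Helper20.CK (Zeq DatF FldF GF0)

variable {e : DatF}

/-- **the bound for one target from the data**, general one-jet field -/
theorem K_dataF {gam c0 ka kb p0 p1 p2 la lb q0 q1 q2 : ℝ} {Ln Ld Ln' Ld' : ℤ}
    (o : e.Ok gam c0 ka kb p0 p1 p2 la lb q0 q1 q2 Ln Ld Ln' Ld')
    (hIn : Pool.Agent.Helper69.EK6.Side e.g.s.d.c.K Ln Ld e.tIn)
    (hOut : Pool.Agent.Helper69.EK6.Side e.g.s.d.c.K Ln' Ld' e.tOut)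
    (hz : Zeq e.g.s.d.MI e.g.s.d.MO) (c10 : 0 ≤ e.g.s.d.c.c1) (del0 : 0 ≤ e.g.s.d.del)
    (hC : CenE (e.g.Ecp e.g.s.d.c.c1 (355 / 113))) {κ : ℝ}
    (hκ : (e.g.s.d.c.lam : ℝ) + e.g.s.d.c.c1 + (|(e.g.s.d.c.c1 : ℝ) - e.g.s.d.kb| +
      2 * |(e.g.s.d.c.a2 : ℝ)|) / 10 ^ 7 < 2 * κ * e.g.s.d.c.M)
    {G : ℂ → ℂ} {L : ℝ} (hG : GLip G L) (hGc : ∀ m, G (conj m) = conj (G m))
    (hF : FldF G gam c0 ka kb p0 p1 p2 la lb q0 q1 q2) :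
    ∃ e' C V₀ a₀ : ℝ, 0 < e' ∧ 0 ≤ C ∧ 0 < V₀ ∧ a₀ < 1 ∧
      ∀ (β : ℂ → ℂ) (R a V : ℝ) (Ω Ω₁ Ω₂ : ℝ → ℝ → ℝ), ExtR β R → a₀ < a → a < 1 →
      0 ≤ V → V ≤ V₀ → WtF (Real.log (tau a) + 1) (-1) V Ω Ω₁ Ω₂ →
      Kf (wf G β) 1 (-1) (Real.log a) +
          e' * II (Real.log (tau a) + 1) (-1) (fun ξ η => ‖Xf β a (pt ξ η) - 1‖ ^ 2) ≤
        κ * Real.log (‖N β a‖ / (1 - a ^ 2)) +
          π⁻¹ * II (Real.log (tau a) + 1) (-1) (fun ξ η => Ω ξ η *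
            Mt (e.g.s.Mu p0 p1 p2 q0 q1 q2) (1 + e.g.s.tn / e.g.s.td) (Xf β a) ξ η) +
          4 * π⁻¹ * II (Real.log (tau a) + 1) (-1) (fun ξ η => 1 - Ω ξ η) +
          (e.g.s.d.del : ℝ) / e.g.s.d.c.M * (-1 - (Real.log (tau a) + 1)) +
          C * (1 + V * (-1 - (Real.log (tau a) + 1))) := by
  refine K_pw (DatG.wf_iff e.g o.wf) o.Mpos o.lam0 c10 del0 hG hGc
    (Mq_cont o.inL (Pool.Agent.Helper20.CK.outD_outL o.outD) (Zeq_scl hz) _)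
    (fun m => DatT.Mu_conj m) ?_ hC hκ
  obtain ⟨B, hB, h⟩ := o.point hIn hOut
  refine ⟨B, hB, fun X Y hX η hη => ?_⟩
  obtain ⟨l1, l2, a1, a2, a3, a4, h1⟩ := h G hF X Y hX η hη
  refine ⟨l1, l2, a1, a2, a3, a4, ?_⟩
  push_cast
  exact h1

/-- the field of the data -/
theorem K_dataF_GF {gam c0 ka kb p0 p1 p2 la lb q0 q1 q2 : ℝ} {Ln Ld Ln' Ld' : ℤ}
    (o : e.Ok gam c0 ka kb p0 p1 p2 la lb q0 q1 q2 Ln Ld Ln' Ld')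
    (hIn : Pool.Agent.Helper69.EK6.Side e.g.s.d.c.K Ln Ld e.tIn)
    (hOut : Pool.Agent.Helper69.EK6.Side e.g.s.d.c.K Ln' Ld' e.tOut)
    (hz : Zeq e.g.s.d.MI e.g.s.d.MO) (c10 : 0 ≤ e.g.s.d.c.c1) (del0 : 0 ≤ e.g.s.d.del)
    (hC : CenE (e.g.Ecp e.g.s.d.c.c1 (355 / 113))) {κ : ℝ}
    (hκ : (e.g.s.d.c.lam : ℝ) + e.g.s.d.c.c1 + (|(e.g.s.d.c.c1 : ℝ) - e.g.s.d.kb| +
      2 * |(e.g.s.d.c.a2 : ℝ)|) / 10 ^ 7 < 2 * κ * e.g.s.d.c.M) :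
    ∃ e' C V₀ a₀ : ℝ, 0 < e' ∧ 0 ≤ C ∧ 0 < V₀ ∧ a₀ < 1 ∧
      ∀ (β : ℂ → ℂ) (R a V : ℝ) (Ω Ω₁ Ω₂ : ℝ → ℝ → ℝ), ExtR β R → a₀ < a → a < 1 →
      0 ≤ V → V ≤ V₀ → WtF (Real.log (tau a) + 1) (-1) V Ω Ω₁ Ω₂ →
      Kf (wf (GF0 gam c0 ka kb p0 p1 p2 la lb q0 q1 q2) β) 1 (-1) (Real.log a) +
          e' * II (Real.log (tau a) + 1) (-1) (fun ξ η => ‖Xf β a (pt ξ η) - 1‖ ^ 2) ≤
        κ * Real.log (‖N β a‖ / (1 - a ^ 2)) +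
          π⁻¹ * II (Real.log (tau a) + 1) (-1) (fun ξ η => Ω ξ η *
            Mt (e.g.s.Mu p0 p1 p2 q0 q1 q2) (1 + e.g.s.tn / e.g.s.td) (Xf β a) ξ η) +
          4 * π⁻¹ * II (Real.log (tau a) + 1) (-1) (fun ξ η => 1 - Ω ξ η) +
          (e.g.s.d.del : ℝ) / e.g.s.d.c.M * (-1 - (Real.log (tau a) + 1)) +
          C * (1 + V * (-1 - (Real.log (tau a) + 1))) := by
  obtain ⟨L, hL⟩ := Pool.Agent.Helper20.CK.GF0_glip gam c0 ka kb p0 p1 p2 la lb q0 q1 q2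
    o.inL o.outD
  exact K_dataF o hIn hOut hz c10 del0 hC hκ hL
    (Pool.Agent.Helper20.CK.GF0_conj gam c0 ka kb p0 p1 p2 la lb q0 q1 q2)
    (Pool.Agent.Helper20.CK.fld_GF0 gam c0 ka kb p0 p1 p2 la lb q0 q1 q2)

end Pool.Agent.Helper65.CK
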