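import Pool.Agent.Helper65.CK.KDataM
import Pool.Agent.Helper65.CK.KDataF
import Pool.Agent.Helper77.CK.PTC
import Pool.Agent.Helper52.CK.Main
set_option autoImplicit false
open Complex MeasureTheory Metric Set
open scoped Real ComplexConjugate

/-!
# Project CK: from the data of a certificate to the integral means spectrum
-/

namespace Pool.Agent.Helper65.CK

open Pool.Agent.Helper39.Area Pool.Agent.Helper52.EK Pool.Agent.Helper52.CK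
open Pool.Agent.Helper71.CK
open Pool.Agent.Helper69.CK (MOk Mh Mh_le Mh_cont)
open Pool.Agent.Helper84.CB (CenE)
open Pool.Agent.Helper20.CK (Zeq DatF GF0)
open Pool.Agent.Helper20.EK7 (Gp Gp_glip)
open Pool.Agent.Helper77.CK (KOneStmt)

/-- the bound `B(-p) ≤ p - 1 + dl` for `p ≥ κ` -/
def Means (κ dl : ℝ) : Prop :=
  ∀ p : ℝ, κ ≤ p → ∀ e : ℝ, 0 < e → ∃ C : ℝ, ∀ ψ : ℂ → ℂ,
    DifferentiableOn ℂ ψ {z : ℂ | 1 < ‖z‖} → InjOn ψ {z : ℂ | 1 < ‖z‖} →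
    (∃ b : ℂ, Filter.Tendsto (fun z => ψ z - z) (Bornology.cobounded ℂ) (nhds b)) →
    ∀ R : ℝ, 1 < R →
    (2 * π)⁻¹ * (∫ θ in (0:ℝ)..(2 * π), ‖deriv ψ (R * Complex.exp (θ * I))‖ ^ (-p)) ≤
      C * (R ^ 2 / (R ^ 2 - 1)) ^ (p - 1 + dl + e)

/-- the multiplier can be replaced by a bounded Lipschitz one -/
def MB (Mb : ℝ) (M : ℂ → ℂ) : Prop :=
  ∃ (M' : ℂ → ℂ) (L' ε : ℝ), 0 < ε ∧ MOk M M' Mb L' ε

/-- **the spectrum from the bound for one target** -/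
theorem means_of_K {κ dl q Mb L : ℝ} (hκ : 1 ≤ κ) (hdl : 0 ≤ dl) (hMb0 : 0 ≤ Mb)
    (hMb : Mb < 2 * κ) {G M : ℂ → ℂ} (hG : GLip G L) (hM : MB Mb M)
    (hq : q = 1 + dl / (2 * κ)) (hK : KOneStmt κ dl G M q) : Means κ dl := by
  obtain ⟨M', L', ε, hε, hM'⟩ := hM
  rw [hq] at hK
  have hpt := Pool.Agent.Helper77.CK.pt (by linarith) hdl hG hM' hε hK
  exact main_of_pt hκ hdl hMb0 hMb hG (fun β R h => Mh_cont hM' h.toExt)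
    (fun β z => Mh_le hM' β z) hpt

variable {g : DatG} {e : DatF}

/-- **the spectrum from the data**: growth class, disc multipliers with growth -/
theorem meansG {ka kb p0 p1 p2 la lb q0 q1 q2 : ℝ} {Ln Ld Ln' Ld' : ℤ}
    (o : g.Ok ka kb p0 p1 p2 la lb q0 q1 q2 Ln Ld Ln' Ld')
    (hIn : Pool.Sos71.SideG g.s.d.c.K Ln Ld g.tIn)
    (hOut : Pool.Sos71.SideG g.s.d.c.K Ln' Ld' g.tOut)
    (hz : Zeq g.s.d.MI g.s.d.MO) (c10 : 0 ≤ g.s.d.c.c1) (del0 : 0 ≤ g.s.d.del)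
    (hCen : ∀ x : Pool.Sos71.Pnt, 0 ≤ -2 * x.f - x.f ^ 2 - x.g ^ 2 →
      0 ≤ (Pool.Sos71.Ex.bp g.cen).re x)
    {κ : ℝ} (hk : (g.s.d.c.lam : ℝ) + g.s.d.c.c1 + (|(g.s.d.c.c1 : ℝ) - g.s.d.kb| +
      2 * |(g.s.d.c.a2 : ℝ)|) / 10 ^ 7 < 2 * κ * g.s.d.c.M)
    (hκ : 1 ≤ κ) {Mb : ℝ} (hMb0 : 0 ≤ Mb) (hMb : Mb < 2 * κ)
    (hM : MB Mb (g.s.Mu p0 p1 p2 q0 q1 q2))
    (ht : (g.s.tn : ℝ) / g.s.td = (g.s.d.del : ℝ) / g.s.d.c.M / (2 * κ)) :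
    Means κ ((g.s.d.del : ℝ) / g.s.d.c.M) := by
  obtain ⟨L, hG⟩ := Gp_glip (a := ka) (b := kb) (b' := lb) o.inL o.outL
  have hM0 : (0:ℝ) < g.s.d.c.M := by exact_mod_cast o.M0
  have hd0 : (0:ℝ) ≤ g.s.d.del := by exact_mod_cast del0
  exact means_of_K hκ (div_nonneg hd0 hM0.le) hMb0 hMb hG hM (by rw [ht])
    (K_data_GpG o hIn hOut hz c10 del0 (cenE_pos (DatG.wf_iff g o.wf) hCen) hk)

/-- **the spectrum from the data**: growth class, disc multipliers with growth, additional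
multipliers of the relation -/
theorem meansM {ka kb p0 p1 p2 la lb q0 q1 q2 : ℝ} {Ln Ld Ln' Ld' : ℤ}
    (o : g.Ok ka kb p0 p1 p2 la lb q0 q1 q2 Ln Ld Ln' Ld') {mi mo : Pool.Sos71.Ex}
    (hIn : Pool.Sos71.SideG g.s.d.c.K Ln Ld (g.tInM mi))
    (hOut : Pool.Sos71.SideG g.s.d.c.K Ln' Ld' (g.tOutM mo))
    (hz : Zeq g.s.d.MI g.s.d.MO) (c10 : 0 ≤ g.s.d.c.c1) (del0 : 0 ≤ g.s.d.del)
    (hCen : ∀ x : Pool.Sos71.Pnt, 0 ≤ -2 * x.f - x.f ^ 2 - x.g ^ 2 →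
      0 ≤ (Pool.Sos71.Ex.bp g.cen).re x)
    {κ : ℝ} (hk : (g.s.d.c.lam : ℝ) + g.s.d.c.c1 + (|(g.s.d.c.c1 : ℝ) - g.s.d.kb| +
      2 * |(g.s.d.c.a2 : ℝ)|) / 10 ^ 7 < 2 * κ * g.s.d.c.M)
    (hκ : 1 ≤ κ) {Mb : ℝ} (hMb0 : 0 ≤ Mb) (hMb : Mb < 2 * κ)
    (hM : MB Mb (g.s.Mu p0 p1 p2 q0 q1 q2))
    (ht : (g.s.tn : ℝ) / g.s.td = (g.s.d.del : ℝ) / g.s.d.c.M / (2 * κ)) :
    Means κ ((g.s.d.del : ℝ) / g.s.d.c.M) := by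
  obtain ⟨L, hG⟩ := Gp_glip (a := ka) (b := kb) (b' := lb) o.inL o.outL
  have hM0 : (0:ℝ) < g.s.d.c.M := by exact_mod_cast o.M0
  have hd0 : (0:ℝ) ≤ g.s.d.del := by exact_mod_cast del0
  exact means_of_K hκ (div_nonneg hd0 hM0.le) hMb0 hMb hG hM (by rw [ht])
    (K_data_GpM o hIn hOut hz c10 del0 (cenE_pos (DatG.wf_iff g o.wf) hCen) hk)

/-- **the spectrum from the data**: general one-jet field -/
theorem meansF {gam c0 ka kb p0 p1 p2 la lb q0 q1 q2 : ℝ} {Ln Ld Ln' Ld' : ℤ}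
    (o : e.Ok gam c0 ka kb p0 p1 p2 la lb q0 q1 q2 Ln Ld Ln' Ld')
    (hIn : Pool.Agent.Helper69.EK6.Side e.g.s.d.c.K Ln Ld e.tIn)
    (hOut : Pool.Agent.Helper69.EK6.Side e.g.s.d.c.K Ln' Ld' e.tOut)
    (hz : Zeq e.g.s.d.MI e.g.s.d.MO) (c10 : 0 ≤ e.g.s.d.c.c1) (del0 : 0 ≤ e.g.s.d.del)
    (hCen : ∀ x : Pool.Sos71.Pnt, 0 ≤ -2 * x.f - x.f ^ 2 - x.g ^ 2 →
      0 ≤ (Pool.Sos71.Ex.bp e.g.cen).re x)
    {κ : ℝ} (hk : (e.g.s.d.c.lam : ℝ) + e.g.s.d.c.c1 + (|(e.g.s.d.c.c1 : ℝ) - e.g.s.d.kb| +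
      2 * |(e.g.s.d.c.a2 : ℝ)|) / 10 ^ 7 < 2 * κ * e.g.s.d.c.M)
    (hκ : 1 ≤ κ) {Mb : ℝ} (hMb0 : 0 ≤ Mb) (hMb : Mb < 2 * κ)
    (hM : MB Mb (e.g.s.Mu p0 p1 p2 q0 q1 q2))
    (ht : (e.g.s.tn : ℝ) / e.g.s.td = (e.g.s.d.del : ℝ) / e.g.s.d.c.M / (2 * κ)) :
    Means κ ((e.g.s.d.del : ℝ) / e.g.s.d.c.M) := by
  obtain ⟨L, hG⟩ := Pool.Agent.Helper20.CK.GF0_glip gam c0 ka kb p0 p1 p2 la lb q0 q1 q2
    o.inL o.outD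
  have hM0 : (0:ℝ) < e.g.s.d.c.M := by exact_mod_cast o.Mpos
  have hd0 : (0:ℝ) ≤ e.g.s.d.del := by exact_mod_cast del0
  exact means_of_K hκ (div_nonneg hd0 hM0.le) hMb0 hMb hG hM (by rw [ht])
    (K_dataF_GF o hIn hOut hz c10 del0 (cenE_pos (DatG.wf_iff e.g o.wf) hCen) hk)

end Pool.Agent.Helper65.CK
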